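import Mathlib

set_option autoImplicit false

open Filter Topology

namespace Pool.Agent.Helper893.Plichko

variable {𝕜 : Type*} [RCLike 𝕜] {X : Type*} [NormedAddCommGroup X] [NormedSpace 𝕜 X]

/-- closed span -/
def CS (𝕜 : Type*) [RCLike 𝕜] {X : Type*} [NormedAddCommGroup X] [NormedSpace 𝕜 X] (A : Set X) :
    Submodule 𝕜 X := (Submodule.span 𝕜 A).topologicalClosure

theorem CS_closed (A : Set X) : IsClosed (CS 𝕜 A : Set X) := Submodule.isClosed_topologicalClosure _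

theorem CS_mono {A B : Set X} (h : A ⊆ B) : CS 𝕜 A ≤ CS 𝕜 B :=
  Submodule.topologicalClosure_mono (Submodule.span_mono h)

theorem CS_le {A : Set X} {V : Submodule 𝕜 X} (hV : IsClosed (V : Set X)) (h : A ⊆ V) :
    CS 𝕜 A ≤ V :=
  Submodule.topologicalClosure_minimal _ (Submodule.span_le.mpr h) hV

theorem subset_CS (A : Set X) : A ⊆ CS 𝕜 A := fun _ ha =>
  Submodule.le_topologicalClosure _ (Submodule.subset_span ha)

theorem countable_CS (A : Set X) (v : X) (hv : v ∈ CS 𝕜 A) :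
    ∃ B ⊆ A, B.Countable ∧ v ∈ CS 𝕜 B := by
  have hv' : v ∈ closure ((Submodule.span 𝕜 A : Submodule 𝕜 X) : Set X) := by
    rw [← Submodule.topologicalClosure_coe]; exact hv
  obtain ⟨u, hu, hlim⟩ := mem_closure_iff_seq_limit.mp hv'
  have h1 : ∀ n, ∃ T : Finset X, (T : Set X) ⊆ A ∧ u n ∈ Submodule.span 𝕜 (T : Set X) := fun n =>
    Submodule.mem_span_finite_of_mem_span (hu n)
  choose T hTA hT using h1
  refine ⟨⋃ n, (T n : Set X), Set.iUnion_subset hTA,
    Set.countable_iUnion fun n => (T n).countable_toSet, ?_⟩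
  refine (CS_closed _).mem_of_tendsto hlim (Eventually.of_forall fun n => ?_)
  exact Submodule.le_topologicalClosure _
    (Submodule.span_mono (Set.subset_iUnion (fun n => (T n : Set X)) n) (hT n))

theorem exists_dense (A : Set X) (hA : A.Countable) :
    ∃ D : Set X, D.Countable ∧ D ⊆ CS 𝕜 A ∧ (CS 𝕜 A : Set X) ⊆ closure D := by
  have h1 : TopologicalSpace.IsSeparable (CS 𝕜 A : Set X) := by
    rw [CS, Submodule.topologicalClosure_coe]
    exact (hA.isSeparable.span (R := 𝕜)).closure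
  obtain ⟨D, hD1, hD2, hD3⟩ := h1.exists_countable_dense_subset
  exact ⟨D, hD2, hD1, hD3⟩

theorem sup_eq_top [CompleteSpace X] {c : ℝ} (hc : 0 < c) (S T : Submodule 𝕜 X)
    (hS : IsClosed (S : Set X)) (hT : IsClosed (T : Set X))
    (h : ∀ u ∈ S, ∀ k ∈ T, c * ‖u‖ ≤ ‖u + k‖) : IsClosed ((S ⊔ T : Submodule 𝕜 X) : Set X) := by
  have : CompleteSpace S := hS.completeSpace_coe
  have : CompleteSpace T := hT.completeSpace_coe
  let Φ : (S × T) →L[𝕜] X :=
    S.subtypeL.comp (ContinuousLinearMap.fst 𝕜 _ _) + T.subtypeL.comp (ContinuousLinearMap.snd 𝕜 _ _)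
  have hΦ : ∀ p : S × T, Φ p = (p.1 : X) + p.2 := fun p => rfl
  have hanti : AntilipschitzWith (Real.toNNReal (1 + 1 / c)) Φ := by
    apply AddMonoidHomClass.antilipschitz_of_bound
    intro p
    rw [Real.coe_toNNReal _ (by positivity), hΦ]
    have h1 := h p.1 p.1.2 p.2 p.2.2
    have h2 : ‖(p.1 : X)‖ ≤ (1 / c) * ‖(p.1 : X) + p.2‖ := by
      rw [one_div, inv_mul_eq_div, le_div_iff₀ hc, mul_comm]
      exact h1
    have h3 : ‖(p.2 : X)‖ ≤ (1 + 1 / c) * ‖(p.1 : X) + p.2‖ := by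
      have h4 : (p.2 : X) = ((p.1 : X) + p.2) - p.1 := by abel
      have h5 : ‖(p.2 : X)‖ ≤ ‖(p.1 : X) + p.2‖ + ‖(p.1 : X)‖ := by
        conv_lhs => rw [h4]
        exact norm_sub_le _ _
      linarith
    rw [Prod.norm_def]
    refine max_le ?_ h3
    refine (show ‖p.1‖ ≤ _ from h2).trans ?_
    exact mul_le_mul_of_nonneg_right (by linarith) (norm_nonneg _)
  have hclosed : IsClosed (Set.range Φ) := hanti.isClosed_range Φ.uniformContinuous
  have hrange : ((S ⊔ T : Submodule 𝕜 X) : Set X) = Set.range Φ := by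
    ext v
    rw [SetLike.mem_coe, Submodule.mem_sup]
    constructor
    · rintro ⟨y, hy, z, hz, rfl⟩
      exact ⟨(⟨y, hy⟩, ⟨z, hz⟩), rfl⟩
    · rintro ⟨p, rfl⟩
      exact ⟨p.1, p.1.2, p.2, p.2.2, rfl⟩
  rw [hrange]
  exact hclosed

/-- A space with a linearly dense set and a norming set of functionals which are countably
supported on it has the separable complementation property. -/
theorem exists_proj [CompleteSpace X] (M : Set X) (hM : Dense (Submodule.span 𝕜 M : Set X))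
    (N : Set (X →L[𝕜] 𝕜)) (r : ℝ) (hr : 0 < r)
    (hN : ∀ x : X, x ≠ 0 → ∃ f ∈ N, ‖f‖ ≤ 1 ∧ r * ‖x‖ ≤ ‖f x‖)
    (hcount : ∀ f ∈ N, {m | m ∈ M ∧ f m ≠ 0}.Countable) (S : Set X) (hS : S.Countable) :
    ∃ (R : X →ₗ[𝕜] X) (C : ℝ) (A : Set X), A.Countable ∧ (∀ x, ‖R x‖ ≤ C * ‖x‖) ∧
      (∀ x, R x ∈ CS 𝕜 A) ∧ (∀ x ∈ CS 𝕜 A, R x = x) ∧ S ⊆ CS 𝕜 A := by
  classical
  have hMtop : CS 𝕜 M = ⊤ := by
    rw [CS]
    exact (Submodule.dense_iff_topologicalClosure_eq_top).mp hM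
  have hF : ∀ x : X, ∃ f : X →L[𝕜] 𝕜, ‖f‖ ≤ 1 ∧ r * ‖x‖ ≤ ‖f x‖ ∧
      {m | m ∈ M ∧ f m ≠ 0}.Countable := by
    intro x
    by_cases hx : x = 0
    · refine ⟨0, by simp, by simp [hx], ?_⟩
      simp
    · obtain ⟨f, hf1, hf2, hf3⟩ := hN x hx
      exact ⟨f, hf2, hf3, hcount f hf1⟩
  choose F hF1 hF2 hF3 using hF
  have hB : ∀ v : X, ∃ B ⊆ M, B.Countable ∧ v ∈ CS 𝕜 B := fun v =>
    countable_CS M v (by rw [hMtop]; trivial)
  choose B hBM hBc hBv using hB
  have hDn : ∀ A : Set X, ∃ D : Set X, A.Countable → (D.Countable ∧ D ⊆ CS 𝕜 A ∧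
      (CS 𝕜 A : Set X) ⊆ closure D) := by
    intro A
    by_cases hA : A.Countable
    · obtain ⟨D, hD⟩ := exists_dense (𝕜 := 𝕜) A hA
      exact ⟨D, fun _ => hD⟩
    · exact ⟨∅, fun h => absurd h hA⟩
  choose Dn hDn using hDn
  let st : Set X → Set X := fun A => A ∪ ⋃ q ∈ Dn A, {m | m ∈ M ∧ F q m ≠ 0}
  let A : ℕ → Set X := fun n => Nat.rec (⋃ x ∈ S, B x) (fun _ A => st A) n
  have hA0 : A 0 = ⋃ x ∈ S, B x := rfl
  have hAs : ∀ n, A (n + 1) = st (A n) := fun n => rfl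
  have hAc : ∀ n, (A n).Countable := by
    intro n
    induction n with
    | zero =>
      rw [hA0]
      exact hS.biUnion fun x _ => hBc x
    | succ n ih =>
      rw [hAs]
      exact ih.union ((hDn (A n) ih).1.biUnion fun q _ => hF3 q)
  have hAM : ∀ n, A n ⊆ M := by
    intro n
    induction n with
    | zero =>
      rw [hA0]
      exact Set.iUnion₂_subset fun x _ => hBM x
    | succ n ih =>
      rw [hAs]
      exact Set.union_subset ih (Set.iUnion₂_subset fun q _ m hm => hm.1)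
  have hAmono : Monotone A := monotone_nat_of_le_succ fun n => by
    rw [hAs]
    exact Set.subset_union_left
  let AA : Set X := ⋃ n, A n
  have hAAc : AA.Countable := Set.countable_iUnion hAc
  have hAAM : AA ⊆ M := Set.iUnion_subset hAM
  let T : Set X := M \ AA
  have hTker : ∀ n, ∀ q ∈ Dn (A n), ∀ k ∈ CS 𝕜 T, F q k = 0 := by
    intro n q hq k hk
    have h1 : CS 𝕜 T ≤ LinearMap.ker (F q : X →ₗ[𝕜] 𝕜) := by
      refine CS_le (ContinuousLinearMap.isClosed_ker (F q)) ?_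
      intro m hm
      rw [SetLike.mem_coe, LinearMap.mem_ker, ContinuousLinearMap.coe_coe]
      by_contra hcon
      refine hm.2 (Set.mem_iUnion.mpr ⟨n + 1, ?_⟩)
      rw [hAs]
      exact Or.inr (Set.mem_biUnion hq ⟨hm.1, hcon⟩)
    exact h1 hk
  have hnorm : ∀ u ∈ CS 𝕜 AA, ∀ k ∈ CS 𝕜 T, r * ‖u‖ ≤ ‖u + k‖ := by
    intro u hu k hk
    have hcl : IsClosed {u : X | r * ‖u‖ ≤ ‖u + k‖} :=
      isClosed_le (continuous_const.mul continuous_norm) (continuous_id.add continuous_const).norm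
    have h1 : ∀ n, (CS 𝕜 (A n) : Set X) ⊆ {u : X | r * ‖u‖ ≤ ‖u + k‖} := by
      intro n
      refine (hDn (A n) (hAc n)).2.2.trans (closure_minimal ?_ hcl)
      intro q hq
      have h2 : F q q = F q (q + k) := by rw [map_add, hTker n q hq k hk, add_zero]
      calc r * ‖q‖ ≤ ‖F q q‖ := hF2 q
        _ = ‖F q (q + k)‖ := by rw [← h2]
        _ ≤ ‖F q‖ * ‖q + k‖ := (F q).le_opNorm _
        _ ≤ 1 * ‖q + k‖ := mul_le_mul_of_nonneg_right (hF1 q) (norm_nonneg _)
        _ = ‖q + k‖ := one_mul _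
    have h2 : (Submodule.span 𝕜 AA : Set X) ⊆ {u : X | r * ‖u‖ ≤ ‖u + k‖} := by
      intro v hv
      have h3 : v ∈ Submodule.span 𝕜 (⋃ n, A n) := hv
      rw [Submodule.span_iUnion] at h3
      obtain ⟨n, hn⟩ := (Submodule.mem_iSup_of_directed _
        ((Submodule.span_monotone.comp hAmono).directed_le)).mp h3
      exact h1 n (Submodule.le_topologicalClosure _ hn)
    have h3 : u ∈ closure (Submodule.span 𝕜 AA : Set X) := by
      rw [← Submodule.topologicalClosure_coe]; exact hu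
    exact closure_minimal h2 hcl h3
  have hclosed := sup_eq_top hr (CS 𝕜 AA) (CS 𝕜 T) (CS_closed _) (CS_closed _) hnorm
  have htop : CS 𝕜 AA ⊔ CS 𝕜 T = ⊤ := by
    rw [eq_top_iff, ← hMtop]
    refine CS_le hclosed ?_
    intro m hm
    by_cases h : m ∈ AA
    · exact Submodule.mem_sup_left (subset_CS _ h)
    · exact Submodule.mem_sup_right (subset_CS _ ⟨hm, h⟩)
  have hdisj : Disjoint (CS 𝕜 AA) (CS 𝕜 T) := by
    rw [Submodule.disjoint_def]
    intro u hu hu'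
    have h1 := hnorm u hu (-u) ((CS 𝕜 T).neg_mem hu')
    rw [add_neg_cancel, norm_zero] at h1
    have h2 : ‖u‖ ≤ 0 := by
      by_contra hcon
      push Not at hcon
      have := mul_pos hr hcon
      linarith
    exact norm_le_zero_iff.mp h2
  have hcompl : IsCompl (CS 𝕜 AA) (CS 𝕜 T) := ⟨hdisj, codisjoint_iff.mpr htop⟩
  have hdec : ∀ x : X, ∃ u ∈ CS 𝕜 AA, ∃ k ∈ CS 𝕜 T, u + k = x := fun x =>
    Submodule.mem_sup.mp (by rw [htop]; trivial)
  choose U hU K hK hUK using hdec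
  have huniq : ∀ u ∈ CS 𝕜 AA, ∀ k ∈ CS 𝕜 T, U (u + k) = u := by
    intro u hu k hk
    have h1 : U (u + k) - u ∈ CS 𝕜 AA := (CS 𝕜 AA).sub_mem (hU _) hu
    have h2 : U (u + k) - u = k - K (u + k) := by
      rw [sub_eq_sub_iff_add_eq_add, hUK, add_comm]
    have h3 : U (u + k) - u ∈ CS 𝕜 T := by
      rw [h2]
      exact (CS 𝕜 T).sub_mem hk (hK _)
    exact sub_eq_zero.mp ((Submodule.disjoint_def.mp hdisj) _ h1 h3)
  refine ⟨{ toFun := U, map_add' := ?_, map_smul' := ?_ }, 1 / r, AA, hAAc, ?_, hU, ?_, ?_⟩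
  · intro x y
    have h1 := huniq (U x + U y) ((CS 𝕜 AA).add_mem (hU x) (hU y)) (K x + K y)
      ((CS 𝕜 T).add_mem (hK x) (hK y))
    rwa [show U x + U y + (K x + K y) = (U x + K x) + (U y + K y) by abel, hUK, hUK] at h1
  · intro c x
    have h1 := huniq (c • U x) ((CS 𝕜 AA).smul_mem c (hU x)) (c • K x)
      ((CS 𝕜 T).smul_mem c (hK x))
    rwa [← smul_add, hUK] at h1
  · intro x
    have h1 := hnorm (U x) (hU x) (K x) (hK x)
    rw [hUK] at h1
    change ‖U x‖ ≤ _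
    rw [one_div, inv_mul_eq_div, le_div_iff₀ hr, mul_comm]
    exact h1
  · intro x hx
    have h1 := huniq x hx 0 (CS 𝕜 T).zero_mem
    rwa [add_zero] at h1
  · intro x hx
    refine CS_mono ?_ (hBv x)
    refine Set.Subset.trans ?_ (Set.subset_iUnion A 0)
    rw [hA0]
    exact Set.subset_biUnion_of_mem hx

end Pool.Agent.Helper893.Plichko
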