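import Mathlib

set_option autoImplicit false

open Filter Topology

namespace Pool.Agent.Helper893.L1Sub

/-! ### averages over the binary tree -/

section Avg

variable (𝕜 : Type*) [RCLike 𝕜] {V W : Type*} [NormedAddCommGroup V] [NormedSpace 𝕜 V]
  [NormedAddCommGroup W] [NormedSpace 𝕜 W]

/-- average of `L` over the extensions of a node by `k` further signs -/
noncomputable def av (L : List Bool → V) : ℕ → List Bool → V
  | 0, e => L e
  | k + 1, e => (2⁻¹ : 𝕜) • (av L k (false :: e) + av L k (true :: e))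

theorem av_zero (L : List Bool → V) (e : List Bool) : av 𝕜 L 0 e = L e := rfl

theorem av_succ (L : List Bool → V) (k : ℕ) (e : List Bool) :
    av 𝕜 L (k + 1) e = (2⁻¹ : 𝕜) • (av 𝕜 L k (false :: e) + av 𝕜 L k (true :: e)) := rfl

theorem av_succ' (L : List Bool → V) (k : ℕ) (e : List Bool) :
    av 𝕜 L (k + 1) e = av 𝕜 (fun d => (2⁻¹ : 𝕜) • (L (false :: d) + L (true :: d))) k e := by
  induction k generalizing e with
  | zero => rfl
  | succ k ih => rw [av_succ, ih, ih, ← av_succ]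

theorem av_map (T : V →ₗ[𝕜] W) (L : List Bool → V) (k : ℕ) (e : List Bool) :
    T (av 𝕜 L k e) = av 𝕜 (fun d => T (L d)) k e := by
  induction k generalizing e with
  | zero => rfl
  | succ k ih => rw [av_succ, map_smul, map_add, ih, ih, ← av_succ]

theorem av_congr (L L' : List Bool → V) (k : ℕ) (e : List Bool)
    (h : ∀ d : List Bool, d.length ≤ e.length + k → L d = L' d) : av 𝕜 L k e = av 𝕜 L' k e := by
  induction k generalizing e with
  | zero => exact h e le_rfl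
  | succ k ih =>
    rw [av_succ, av_succ, ih, ih]
    · intro d hd
      refine h d (hd.trans ?_)
      simp only [List.length_cons]
      omega
    · intro d hd
      refine h d (hd.trans ?_)
      simp only [List.length_cons]
      omega

theorem half_add_half (v : V) : (2⁻¹ : 𝕜) • (v + v) = v := by
  rw [← two_smul 𝕜 v, smul_smul, inv_mul_cancel₀ two_ne_zero, one_smul]

theorem av_mart (L : List Bool → V)
    (h : ∀ d, L d = (2⁻¹ : 𝕜) • (L (false :: d) + L (true :: d))) (k : ℕ) (e : List Bool) :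
    av 𝕜 L k e = L e := by
  induction k generalizing e with
  | zero => rfl
  | succ k ih => rw [av_succ, ih, ih, ← h]

theorem av_const (v : V) (k : ℕ) (e : List Bool) : av 𝕜 (fun _ => v) k e = v :=
  av_mart 𝕜 _ (fun _ => (half_add_half 𝕜 v).symm) k e

theorem norm_half : ‖(2⁻¹ : 𝕜)‖ = 2⁻¹ := by
  rw [norm_inv, RCLike.norm_ofNat]

theorem norm_av_le (L : List Bool → V) (k : ℕ) (e : List Bool) :
    ‖av 𝕜 L k e‖ ≤ av ℝ (fun d => ‖L d‖) k e := by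
  induction k generalizing e with
  | zero => exact le_rfl
  | succ k ih =>
    rw [av_succ, av_succ, norm_smul, norm_half, smul_eq_mul]
    refine mul_le_mul_of_nonneg_left ?_ (by norm_num)
    exact (norm_add_le _ _).trans (add_le_add (ih _) (ih _))

theorem av_real_mono (a b : List Bool → ℝ) (h : ∀ d, a d ≤ b d) (k : ℕ) (e : List Bool) :
    av ℝ a k e ≤ av ℝ b k e := by
  induction k generalizing e with
  | zero => exact h e
  | succ k ih =>
    rw [av_succ, av_succ, smul_eq_mul, smul_eq_mul]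
    exact mul_le_mul_of_nonneg_left (add_le_add (ih _) (ih _)) (by norm_num)

theorem av_le_of_le (a : List Bool → ℝ) (C : ℝ) (h : ∀ d, a d ≤ C) (k : ℕ) (e : List Bool) :
    av ℝ a k e ≤ C := by
  have := av_real_mono a (fun _ => C) h k e
  rwa [av_const] at this

theorem av_norm_le_of_le (L : List Bool → V) (C : ℝ) (h : ∀ d, ‖L d‖ ≤ C) (k : ℕ)
    (e : List Bool) : ‖av 𝕜 L k e‖ ≤ C :=
  (norm_av_le 𝕜 L k e).trans (av_le_of_le _ C h k e)

theorem av_nonneg (a : List Bool → ℝ) (h : ∀ d, 0 ≤ a d) (k : ℕ) (e : List Bool) :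
    0 ≤ av ℝ a k e := by
  have := av_real_mono (fun _ => 0) a h k e
  rwa [av_const] at this

theorem av_sum {κ : Type*} (s : Finset κ) (a : κ → List Bool → V) (k : ℕ) (e : List Bool) :
    ∑ i ∈ s, av 𝕜 (a i) k e = av 𝕜 (fun d => ∑ i ∈ s, a i d) k e := by
  induction k generalizing e with
  | zero => rfl
  | succ k ih =>
    rw [av_succ, ← ih, ← ih, ← Finset.sum_add_distrib, Finset.smul_sum]
    rfl

theorem av_add (L L' : List Bool → V) (k : ℕ) (e : List Bool) :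
    av 𝕜 L k e + av 𝕜 L' k e = av 𝕜 (fun d => L d + L' d) k e := by
  induction k generalizing e with
  | zero => rfl
  | succ k ih =>
    rw [av_succ, av_succ, av_succ, ← ih, ← ih, ← smul_add]
    congr 1
    abel

theorem av_sub (L L' : List Bool → V) (k : ℕ) (e : List Bool) :
    av 𝕜 L k e - av 𝕜 L' k e = av 𝕜 (fun d => L d - L' d) k e := by
  induction k generalizing e with
  | zero => rfl
  | succ k ih =>
    rw [av_succ, av_succ, av_succ, ← ih, ← ih, ← smul_sub]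
    congr 1
    abel

theorem av_sq_le (a : List Bool → ℝ) (k : ℕ) (e : List Bool) :
    (av ℝ a k e) ^ 2 ≤ av ℝ (fun d => a d ^ 2) k e := by
  induction k generalizing e with
  | zero => exact le_rfl
  | succ k ih =>
    rw [av_succ, av_succ, smul_eq_mul, smul_eq_mul]
    have h1 := ih (false :: e)
    have h2 := ih (true :: e)
    nlinarith [sq_nonneg (av ℝ a k (false :: e) - av ℝ a k (true :: e))]

/-- the Rademacher average of order `n` -/
noncomputable def rad (L : List Bool → V) (n : ℕ) : V :=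
  av 𝕜 (fun d => (2⁻¹ : 𝕜) • (L (true :: d) - L (false :: d))) n []

theorem rad_map (T : V →ₗ[𝕜] W) (L : List Bool → V) (n : ℕ) :
    T (rad 𝕜 L n) = rad 𝕜 (fun d => T (L d)) n := by
  unfold rad
  rw [av_map]
  congr 1
  funext d
  rw [map_smul, map_sub]

theorem rad_add (L L' : List Bool → V) (n : ℕ) :
    rad 𝕜 (fun d => L d + L' d) n = rad 𝕜 L n + rad 𝕜 L' n := by
  unfold rad
  rw [av_add]
  congr 1
  funext d
  rw [← smul_add, add_sub_add_comm]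

theorem norm_rad_le (L : List Bool → V) (n : ℕ) :
    ‖rad 𝕜 L n‖ ≤ av ℝ (fun d => ‖L d‖) (n + 1) [] := by
  unfold rad
  refine (norm_av_le 𝕜 _ n []).trans ?_
  rw [av_succ']
  refine av_real_mono _ _ (fun d => ?_) n []
  rw [norm_smul, norm_half, smul_eq_mul]
  refine mul_le_mul_of_nonneg_left ?_ (by norm_num)
  rw [add_comm]
  exact norm_sub_le _ _

end Avg

/-- tails of families of submartingales -/
theorem tail {κ : Type*} (a : κ → List Bool → ℝ) (h0 : ∀ k e, 0 ≤ a k e)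
    (hsub : ∀ k e, a k e ≤ (2⁻¹ : ℝ) • (a k (false :: e) + a k (true :: e))) (C : ℝ)
    (hC : ∀ e (s : Finset κ), ∑ k ∈ s, a k e ≤ C) (δ : ℝ) (hδ : 0 < δ) :
    ∃ J : Finset κ, ∀ s : Finset κ, Disjoint s J → ∀ n, ∑ k ∈ s, av ℝ (a k) n [] ≤ δ := by
  classical
  let A : κ → ℕ → ℝ := fun k n => av ℝ (a k) n []
  have hmono : ∀ k, Monotone (A k) := fun k => monotone_nat_of_le_succ fun n => by
    change av ℝ (a k) n [] ≤ av ℝ (a k) (n + 1) []
    rw [av_succ']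
    exact av_real_mono _ _ (hsub k) n []
  have hsum : ∀ (s : Finset κ) n, ∑ k ∈ s, A k n ≤ C := fun s n => by
    change ∑ k ∈ s, av ℝ (a k) n [] ≤ C
    rw [av_sum]
    exact av_le_of_le _ C (fun d => hC d s) n []
  have hbdd : ∀ k, BddAbove (Set.range (A k)) := fun k => ⟨C, by
    rintro _ ⟨n, rfl⟩
    have := hsum {k} n
    rwa [Finset.sum_singleton] at this⟩
  let b : κ → ℝ := fun k => ⨆ n, A k n
  have hAb : ∀ k n, A k n ≤ b k := fun k n => le_ciSup (hbdd k) n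
  have hA0 : ∀ k n, 0 ≤ A k n := fun k n => av_nonneg _ (h0 k) n []
  have hb0 : ∀ k, 0 ≤ b k := fun k => (hA0 k 0).trans (hAb k 0)
  have hbs : ∀ s : Finset κ, ∑ k ∈ s, b k ≤ C := by
    intro s
    have h1 : Tendsto (fun n => ∑ k ∈ s, A k n) atTop (𝓝 (∑ k ∈ s, b k)) :=
      tendsto_finsetSum _ fun k _ => tendsto_atTop_ciSup (hmono k) (hbdd k)
    exact le_of_tendsto' h1 (hsum s)
  have hbsum : Summable b := summable_of_sum_le hb0 hbs
  obtain ⟨J, hJ⟩ := summable_iff_vanishing_norm.mp hbsum δ hδ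
  refine ⟨J, fun s hs n => ?_⟩
  have h1 := hJ s hs
  rw [Real.norm_eq_abs] at h1
  have h2 : ∑ k ∈ s, A k n ≤ ∑ k ∈ s, b k := Finset.sum_le_sum fun k _ => hAb k n
  exact h2.trans ((le_abs_self _).trans h1.le)

/-- Rademacher averages of bounded scalar martingales tend to zero -/
theorem rad_tendsto (𝕜 : Type*) [RCLike 𝕜] (D : List Bool → 𝕜)
    (hD : ∀ d, D d = (2⁻¹ : 𝕜) • (D (false :: d) + D (true :: d))) (C : ℝ)
    (hC : ∀ d, ‖D d‖ ≤ C) : Tendsto (fun n => rad 𝕜 D n) atTop (𝓝 0) := by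
  let e : ℕ → ℝ := fun n => av ℝ (fun d => ‖D d‖ ^ 2) n []
  let q : ℕ → ℝ := fun n => av ℝ (fun d => ‖(2⁻¹ : 𝕜) • (D (true :: d) - D (false :: d))‖ ^ 2) n []
  have hstep : ∀ n, e (n + 1) = e n + q n := by
    intro n
    change av ℝ _ (n + 1) [] = av ℝ _ n [] + av ℝ _ n []
    rw [av_succ', av_add]
    congr 1
    funext d
    have h1 := parallelogram_law_with_norm 𝕜 (D (false :: d)) (D (true :: d))
    have h2 : ‖D d‖ = 2⁻¹ * ‖D (false :: d) + D (true :: d)‖ := by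
      conv_lhs => rw [hD d]
      rw [norm_smul, norm_half]
    rw [h2, norm_smul, norm_half, norm_sub_rev, smul_eq_mul]
    nlinarith
  have hq0 : ∀ n, 0 ≤ q n := fun n => av_nonneg _ (fun d => by positivity) n []
  have hmono : Monotone e := monotone_nat_of_le_succ fun n => by
    rw [hstep]; linarith [hq0 n]
  have hbdd : BddAbove (Set.range e) := ⟨C ^ 2, by
    rintro _ ⟨n, rfl⟩
    exact av_le_of_le _ _ (fun d => pow_le_pow_left₀ (norm_nonneg _) (hC d) 2) n []⟩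
  have h1 : Tendsto e atTop (𝓝 (⨆ n, e n)) := tendsto_atTop_ciSup hmono hbdd
  have h2 : Tendsto (fun n => e (n + 1)) atTop (𝓝 (⨆ n, e n)) := (tendsto_add_atTop_iff_nat 1).mpr h1
  have h3 : Tendsto q atTop (𝓝 0) := by
    have := h2.sub h1
    rw [sub_self] at this
    refine this.congr fun n => ?_
    rw [hstep]; ring
  have h4 : ∀ n, ‖rad 𝕜 D n‖ ^ 2 ≤ q n := by
    intro n
    have h5 : ‖rad 𝕜 D n‖ ≤ av ℝ (fun d => ‖(2⁻¹ : 𝕜) • (D (true :: d) - D (false :: d))‖) n [] :=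
      norm_av_le 𝕜 _ n []
    exact (pow_le_pow_left₀ (norm_nonneg _) h5 2).trans (av_sq_le _ n [])
  have h6 : Tendsto (fun n => ‖rad 𝕜 D n‖ ^ 2) atTop (𝓝 0) :=
    squeeze_zero (fun n => by positivity) h4 h3
  rw [tendsto_zero_iff_norm_tendsto_zero]
  have h7 := h6.sqrt
  rw [Real.sqrt_zero] at h7
  refine h7.congr fun n => ?_
  exact Real.sqrt_sq (norm_nonneg _)

/-! ### the space `ℓ₁(Γ)` -/

/-- `ℓ₁(Γ)` over the field `𝕜` -/
abbrev L1 (𝕜 : Type*) [RCLike 𝕜] (Γ : Type*) := lp (fun _ : Γ => 𝕜) 1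

section L1

variable {𝕜 : Type*} [RCLike 𝕜] {Γ : Type*}

theorem sum_le_norm (f : L1 𝕜 Γ) (s : Finset Γ) : ∑ γ ∈ s, ‖f γ‖ ≤ ‖f‖ := by
  have h := lp.sum_rpow_le_norm_rpow (p := 1) (by simp) f s
  simpa using h

theorem norm_le_of_sum (f : L1 𝕜 Γ) (C : ℝ) (hC : 0 ≤ C) (h : ∀ s : Finset Γ, ∑ γ ∈ s, ‖f γ‖ ≤ C) :
    ‖f‖ ≤ C := by
  refine lp.norm_le_of_forall_sum_le (p := 1) (by simp) hC ?_
  intro s
  simpa using h s

theorem summable_norm (f : L1 𝕜 Γ) : Summable fun γ => ‖f γ‖ :=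
  summable_of_sum_le (fun _ => norm_nonneg _) (sum_le_norm f)

theorem tsum_norm (f : L1 𝕜 Γ) : ∑' γ, ‖f γ‖ = ‖f‖ := by
  have h := lp.norm_eq_tsum_rpow (p := 1) (by simp) f
  simpa using h.symm

open Classical in
/-- unit vectors -/
noncomputable def ee (𝕜 : Type*) [RCLike 𝕜] {Γ : Type*} (γ : Γ) : L1 𝕜 Γ :=
  lp.single 1 γ (1 : 𝕜)

open Classical in
theorem ee_self (γ : Γ) : (ee 𝕜 γ : L1 𝕜 Γ) γ = 1 := by
  exact lp.single_apply_self _ _ _

open Classical in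
theorem ee_ne {γ γ' : Γ} (h : γ' ≠ γ) : (ee 𝕜 γ : L1 𝕜 Γ) γ' = 0 := by
  exact lp.single_apply_ne _ _ _ h

open Classical in
theorem norm_ee (γ : Γ) : ‖(ee 𝕜 γ : L1 𝕜 Γ)‖ = 1 := by
  have h := lp.norm_single (E := fun _ : Γ => 𝕜) (p := 1) (by simp) γ (1 : 𝕜)
  rw [norm_one] at h
  exact h

open Classical in
theorem hasSum_ee (f : L1 𝕜 Γ) : HasSum (fun γ => f γ • ee 𝕜 γ) f := by
  have h := lp.hasSum_single (E := fun _ : Γ => 𝕜) (p := 1) (by simp) f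
  convert h using 1
  funext γ
  rw [ee, ← lp.single_smul, smul_eq_mul, mul_one]

theorem hasSum_map {W : Type*} [NormedAddCommGroup W] [NormedSpace 𝕜 W] (T : L1 𝕜 Γ →L[𝕜] W)
    (f : L1 𝕜 Γ) : HasSum (fun γ => f γ • T (ee 𝕜 γ)) (T f) := by
  have h := (hasSum_ee f).mapL T
  simpa using h

theorem norm_map_le {W : Type*} [NormedAddCommGroup W] [NormedSpace 𝕜 W] (T : L1 𝕜 Γ →L[𝕜] W)
    (C : ℝ) (hT : ∀ γ, ‖T (ee 𝕜 γ)‖ ≤ C) (f : L1 𝕜 Γ) : ‖T f‖ ≤ C * ‖f‖ := by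
  have h1 := hasSum_map T f
  have h2 : Summable fun γ => C * ‖f γ‖ := (summable_norm f).mul_left C
  have h3 : ∀ γ, ‖f γ • T (ee 𝕜 γ)‖ ≤ C * ‖f γ‖ := fun γ => by
    rw [norm_smul, mul_comm]
    exact mul_le_mul_of_nonneg_right (hT γ) (norm_nonneg _)
  have h4 := tsum_of_norm_bounded h2.hasSum h3
  rw [h1.tsum_eq, tsum_mul_left, tsum_norm] at h4
  exact h4

/-- operators on `ℓ₁(Γ)` are given by bounded families -/
theorem exists_lift {W : Type*} [NormedAddCommGroup W] [NormedSpace 𝕜 W] [CompleteSpace W]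
    (u : Γ → W) (C : ℝ) (hu : ∀ γ, ‖u γ‖ ≤ C) :
    ∃ T : L1 𝕜 Γ →L[𝕜] W, ∀ γ, T (ee 𝕜 γ) = u γ := by
  have hs : ∀ f : L1 𝕜 Γ, Summable fun γ => f γ • u γ := fun f => by
    refine Summable.of_norm_bounded ((summable_norm f).mul_left C) (fun γ => ?_)
    rw [norm_smul, mul_comm]
    exact mul_le_mul_of_nonneg_right (hu γ) (norm_nonneg _)
  let T0 : L1 𝕜 Γ →ₗ[𝕜] W :=
    { toFun := fun f => ∑' γ, f γ • u γ
      map_add' := fun f g => by
        rw [← (hs f).tsum_add (hs g)]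
        refine tsum_congr fun γ => ?_
        rw [← add_smul]
        rfl
      map_smul' := fun c f => by
        rw [RingHom.id_apply, ← (hs f).tsum_const_smul c]
        refine tsum_congr fun γ => ?_
        rw [smul_smul]
        rfl }
  refine ⟨T0.mkContinuous C ?_, ?_⟩
  · intro f
    have h2 : Summable fun γ => C * ‖f γ‖ := (summable_norm f).mul_left C
    have h3 : ∀ γ, ‖f γ • u γ‖ ≤ C * ‖f γ‖ := fun γ => by
      rw [norm_smul, mul_comm]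
      exact mul_le_mul_of_nonneg_right (hu γ) (norm_nonneg _)
    have h4 := tsum_of_norm_bounded h2.hasSum h3
    rw [tsum_mul_left, tsum_norm] at h4
    exact h4
  · intro γ
    change ∑' γ', (ee 𝕜 γ : L1 𝕜 Γ) γ' • u γ' = u γ
    rw [tsum_eq_single γ]
    · rw [ee_self, one_smul]
    · intro γ' h
      rw [ee_ne h, zero_smul]

/-- Rademacher averages of bounded martingales in `ℓ₁(Γ)` tend to zero in norm -/
theorem rad_L1_small (D : List Bool → L1 𝕜 Γ)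
    (hD : ∀ d, D d = (2⁻¹ : 𝕜) • (D (false :: d) + D (true :: d))) (C : ℝ)
    (hC : ∀ d, ‖D d‖ ≤ C) (δ : ℝ) (hδ : 0 < δ) : ∃ n0, ∀ n, n0 ≤ n → ‖rad 𝕜 D n‖ ≤ δ := by
  classical
  have hcoord : ∀ γ d, (D d) γ = (2⁻¹ : 𝕜) • ((D (false :: d)) γ + (D (true :: d)) γ) := by
    intro γ d
    conv_lhs => rw [hD d]
    rfl
  have hradc : ∀ γ n, (rad 𝕜 D n) γ = rad 𝕜 (fun d => (D d) γ) n := fun γ n =>
    rad_map 𝕜 (lp.evalₗ (fun _ : Γ => 𝕜) 1 γ) D n
  obtain ⟨J, hJ⟩ := tail (fun γ d => ‖(D d) γ‖) (fun _ _ => norm_nonneg _) (fun γ d => by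
      rw [hcoord γ d, norm_smul, norm_half, smul_eq_mul]
      exact mul_le_mul_of_nonneg_left (norm_add_le _ _) (by norm_num)) C
    (fun d s => (sum_le_norm (D d) s).trans (hC d)) (δ / 2) (by positivity)
  have h1 : Tendsto (fun n => ∑ γ ∈ J, ‖rad 𝕜 (fun d => (D d) γ) n‖) atTop (𝓝 0) := by
    have h2 : Tendsto (fun n => ∑ γ ∈ J, ‖rad 𝕜 (fun d => (D d) γ) n‖) atTop
        (𝓝 (∑ γ ∈ J, (0 : ℝ))) := by
      refine tendsto_finsetSum _ fun γ _ => ?_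
      have h3 := rad_tendsto 𝕜 (fun d => (D d) γ) (hcoord γ) C (fun d =>
        (lp.norm_apply_le_norm one_ne_zero (D d) γ).trans (hC d))
      simpa using h3.norm
    simpa using h2
  obtain ⟨n0, hn0⟩ := eventually_atTop.mp (h1.eventually (gt_mem_nhds (show (0 : ℝ) < δ / 2 by positivity)))
  refine ⟨n0, fun n hn => ?_⟩
  refine norm_le_of_sum _ δ hδ.le fun s => ?_
  have h4 : ∑ γ ∈ s, ‖(rad 𝕜 D n) γ‖ ≤ ∑ γ ∈ J, ‖(rad 𝕜 D n) γ‖ + ∑ γ ∈ s \ J, ‖(rad 𝕜 D n) γ‖ := by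
    rw [← Finset.sum_union Finset.disjoint_sdiff]
    refine Finset.sum_le_sum_of_subset_of_nonneg ?_ (fun _ _ _ => norm_nonneg _)
    intro γ hγ
    by_cases h : γ ∈ J
    · exact Finset.mem_union_left _ h
    · exact Finset.mem_union_right _ (Finset.mem_sdiff.mpr ⟨hγ, h⟩)
  have h5 : ∑ γ ∈ J, ‖(rad 𝕜 D n) γ‖ ≤ δ / 2 := by
    simp only [hradc]
    exact (hn0 n hn).le
  have h6 : ∑ γ ∈ s \ J, ‖(rad 𝕜 D n) γ‖ ≤ δ / 2 := by
    refine le_trans (Finset.sum_le_sum fun γ _ => ?_) (hJ (s \ J) Finset.sdiff_disjoint (n + 1))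
    rw [hradc]
    exact norm_rad_le 𝕜 _ n
  linarith

end L1

/-! ### the subspace -/

open Classical in
/-- initial segment of a set of naturals -/
noncomputable def tr (x : Set ℕ) (n : ℕ) : Finset ℕ := (Finset.range n).filter (· ∈ x)

theorem mem_tr (x : Set ℕ) (n k : ℕ) : k ∈ tr x n ↔ k < n ∧ k ∈ x := by
  simp [tr]

theorem tr_tr (x : Set ℕ) {j m : ℕ} (h : j ≤ m) : tr (↑(tr x m) : Set ℕ) j = tr x j := by
  ext k
  rw [mem_tr, mem_tr, Finset.mem_coe, mem_tr]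
  constructor
  · rintro ⟨h1, _, h3⟩
    exact ⟨h1, h3⟩
  · rintro ⟨h1, h2⟩
    exact ⟨h1, lt_of_lt_of_le h1 h, h2⟩

theorem tr_ne {x y : Set ℕ} (h : x ≠ y) : ∃ k, ∀ n, k ≤ n → tr x (n + 1) ≠ tr y (n + 1) := by
  have h1 : ∃ k, ¬ (k ∈ x ↔ k ∈ y) := by
    by_contra hcon
    push Not at hcon
    exact h (Set.ext hcon)
  obtain ⟨k, hk⟩ := h1
  refine ⟨k, fun n hn he => hk ?_⟩
  have h2 : k ∈ tr x (n + 1) ↔ k ∈ tr y (n + 1) := by rw [he]
  rw [mem_tr, mem_tr] at h2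
  constructor
  · intro hx
    exact (h2.mp ⟨Nat.lt_succ_of_le hn, hx⟩).2
  · intro hy
    exact (h2.mpr ⟨Nat.lt_succ_of_le hn, hy⟩).2

/-- the sign at place `n` of a node -/
noncomputable def phi (𝕜 : Type*) [RCLike 𝕜] (n : ℕ) : List Bool → 𝕜
  | [] => 0
  | b :: e => if e.length = n then (if b then 1 else -1) else phi 𝕜 n e

section Sub

variable (𝕜 : Type*) [RCLike 𝕜] {I : Type*}

theorem phi_cons (n : ℕ) (b : Bool) (e : List Bool) :
    phi 𝕜 n (b :: e) = if e.length = n then (if b then 1 else -1) else phi 𝕜 n e := rfl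

theorem norm_phi_le (n : ℕ) (e : List Bool) : ‖phi 𝕜 n e‖ ≤ 1 := by
  induction e with
  | nil => simp [phi]
  | cons b e ih =>
    rw [phi_cons]
    split_ifs
    · simp
    · simp
    · exact ih

theorem phi_short (n : ℕ) (e : List Bool) (h : e.length ≤ n) : phi 𝕜 n e = 0 := by
  induction e with
  | nil => rfl
  | cons b e ih =>
    rw [List.length_cons] at h
    rw [phi_cons, if_neg (by omega)]
    exact ih (by omega)

theorem phi_mart (n : ℕ) (e : List Bool) :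
    phi 𝕜 n e = (2⁻¹ : 𝕜) • (phi 𝕜 n (false :: e) + phi 𝕜 n (true :: e)) := by
  rw [phi_cons, phi_cons]
  by_cases h : e.length = n
  · rw [if_pos h, if_pos h, phi_short 𝕜 n e h.le]
    simp
  · rw [if_neg h, if_neg h, half_add_half]

theorem rad_phi (n : ℕ) : rad 𝕜 (phi 𝕜 n) n = 1 := by
  have h1 : rad 𝕜 (phi 𝕜 n) n = av 𝕜 (fun _ => (1 : 𝕜)) n [] := by
    have aux : ∀ (k : ℕ) (e : List Bool), e.length + k = n →
        av 𝕜 (fun d => (2⁻¹ : 𝕜) • (phi 𝕜 n (true :: d) - phi 𝕜 n (false :: d))) k e =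
          av 𝕜 (fun _ => (1 : 𝕜)) k e := by
      intro k
      induction k with
      | zero =>
        intro e he
        have he' : e.length = n := by omega
        rw [av_zero, av_zero, phi_cons, phi_cons, if_pos he', if_pos he']
        norm_num
      | succ k ih =>
        intro e he
        rw [av_succ, av_succ, ih _ (by rw [List.length_cons]; omega),
          ih _ (by rw [List.length_cons]; omega)]
    exact aux n [] (by simp)
  rw [h1, av_const]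

/-- index set of the ambient space -/
abbrev Gam (I : Type*) := (Finset ℕ × List Bool × ℕ) ⊕ (I × List Bool)

/-- index set of the range space -/
abbrev Fam := Finset ℕ × List Bool

/-- branch vectors -/
noncomputable def Q (x : Set ℕ) (e : List Bool) : L1 𝕜 Fam := ee 𝕜 (tr x e.length, e)

/-- relation vectors -/
noncomputable def P (a : Finset ℕ) (e : List Bool) (m : ℕ) : L1 𝕜 Fam :=
  Q 𝕜 (a : Set ℕ) e - av 𝕜 (Q 𝕜 (a : Set ℕ)) (m - e.length) e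

theorem norm_Q (x : Set ℕ) (e : List Bool) : ‖Q 𝕜 x e‖ = 1 := norm_ee _

theorem norm_P_le (a : Finset ℕ) (e : List Bool) (m : ℕ) : ‖P 𝕜 a e m‖ ≤ 2 := by
  refine (norm_sub_le _ _).trans ?_
  have h1 := av_norm_le_of_le 𝕜 (Q 𝕜 (a : Set ℕ)) 1 (fun d => (norm_Q 𝕜 _ d).le) (m - e.length) e
  rw [norm_Q]
  linarith

theorem Q_tr (x : Set ℕ) (m : ℕ) (e : List Bool) (h : e.length ≤ m) :
    Q 𝕜 (↑(tr x m) : Set ℕ) e = Q 𝕜 x e := by
  rw [Q, Q, tr_tr x h]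

theorem P_tr (x : Set ℕ) (m : ℕ) (e : List Bool) (h : e.length ≤ m) :
    P 𝕜 (tr x m) e m = Q 𝕜 x e - av 𝕜 (Q 𝕜 x) (m - e.length) e := by
  rw [P, Q_tr 𝕜 x m e h]
  congr 1
  refine av_congr 𝕜 _ _ _ _ fun d hd => Q_tr 𝕜 x m d ?_
  omega

variable (ι : I → Set ℕ)

/-- images of the unit vectors -/
noncomputable def uu : Gam I → L1 𝕜 Fam :=
  Sum.elim (fun p => P 𝕜 p.1 p.2.1 p.2.2) (fun q => -Q 𝕜 (ι q.1) q.2)

theorem norm_uu_le (γ : Gam I) : ‖uu 𝕜 ι γ‖ ≤ 2 := by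
  rcases γ with γ | γ
  · exact norm_P_le 𝕜 _ _ _
  · change ‖-Q 𝕜 (ι γ.1) γ.2‖ ≤ 2
    rw [norm_neg, norm_Q]
    norm_num

/-- the first defining operator -/
noncomputable def Th : L1 𝕜 (Gam I) →L[𝕜] L1 𝕜 Fam :=
  Classical.choose (exists_lift (uu 𝕜 ι) 2 (norm_uu_le 𝕜 ι))

theorem Th_ee (γ : Gam I) : Th 𝕜 ι (ee 𝕜 γ) = uu 𝕜 ι γ :=
  Classical.choose_spec (exists_lift (uu 𝕜 ι) 2 (norm_uu_le 𝕜 ι)) γ

open Classical in
/-- coefficients of the second family of defining functionals -/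
noncomputable def vv (i : I) (n : ℕ) : Gam I → 𝕜 :=
  Sum.elim (fun _ => 0) (fun q => if q.1 = i then phi 𝕜 n q.2 else 0)

omit ι in
theorem norm_vv_le (i : I) (n : ℕ) (γ : Gam I) : ‖vv 𝕜 i n γ‖ ≤ 1 := by
  rcases γ with γ | γ
  · simp [vv]
  · simp only [vv, Sum.elim_inr]
    split_ifs
    · exact norm_phi_le 𝕜 _ _
    · simp

/-- the second family of defining functionals -/
noncomputable def ph (i : I) (n : ℕ) : L1 𝕜 (Gam I) →L[𝕜] 𝕜 :=
  Classical.choose (exists_lift (vv 𝕜 i n) 1 (norm_vv_le 𝕜 i n))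

omit ι in
theorem ph_ee (i : I) (n : ℕ) (γ : Gam I) : ph 𝕜 i n (ee 𝕜 γ) = vv 𝕜 i n γ :=
  Classical.choose_spec (exists_lift (vv 𝕜 i n) 1 (norm_vv_le 𝕜 i n)) γ

/-- the subspace -/
noncomputable def Z : Submodule 𝕜 (L1 𝕜 (Gam I)) :=
  LinearMap.ker (Th 𝕜 ι : L1 𝕜 (Gam I) →ₗ[𝕜] L1 𝕜 Fam) ⊓
    ⨅ i : I, ⨅ n : ℕ, LinearMap.ker (ph 𝕜 i n : L1 𝕜 (Gam I) →ₗ[𝕜] 𝕜)

theorem mem_Z (f : L1 𝕜 (Gam I)) : f ∈ Z 𝕜 ι ↔ Th 𝕜 ι f = 0 ∧ ∀ i n, ph 𝕜 i n f = 0 := by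
  rw [Z, Submodule.mem_inf]
  simp only [Submodule.mem_iInf, LinearMap.mem_ker, ContinuousLinearMap.coe_coe]

theorem isClosed_Z : IsClosed (Z 𝕜 ι : Set (L1 𝕜 (Gam I))) := by
  have h : (Z 𝕜 ι : Set (L1 𝕜 (Gam I))) =
      {f | Th 𝕜 ι f = 0} ∩ ⋂ i : I, ⋂ n : ℕ, {f | ph 𝕜 i n f = 0} := by
    ext f
    rw [SetLike.mem_coe, mem_Z]
    simp
  rw [h]
  refine (isClosed_eq (Th 𝕜 ι).continuous continuous_const).inter ?_
  exact isClosed_iInter fun i => isClosed_iInter fun n =>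
    isClosed_eq (ph 𝕜 i n).continuous continuous_const

/-- special vectors of the subspace -/
noncomputable def zeta (i : I) (e : List Bool) (m : ℕ) : L1 𝕜 (Gam I) :=
  ee 𝕜 (Sum.inl (tr (ι i) m, e, m)) + ee 𝕜 (Sum.inr (i, e)) -
    av 𝕜 (fun d => ee 𝕜 (Sum.inr (i, d) : Gam I)) (m - e.length) e

theorem norm_zeta_le (i : I) (e : List Bool) (m : ℕ) : ‖zeta 𝕜 ι i e m‖ ≤ 3 := by
  refine (norm_sub_le _ _).trans ?_
  have h1 := norm_add_le (ee 𝕜 (Sum.inl (tr (ι i) m, e, m) : Gam I)) (ee 𝕜 (Sum.inr (i, e)))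
  have h2 := av_norm_le_of_le 𝕜 (fun d => ee 𝕜 (Sum.inr (i, d) : Gam I)) 1
    (fun d => (norm_ee _).le) (m - e.length) e
  rw [norm_ee, norm_ee] at h1
  linarith

theorem zeta_mem (i : I) (e : List Bool) (m : ℕ) (h : e.length ≤ m) :
    zeta 𝕜 ι i e m ∈ Z 𝕜 ι := by
  rw [mem_Z]
  constructor
  · have h1 : Th 𝕜 ι (av 𝕜 (fun d => ee 𝕜 (Sum.inr (i, d) : Gam I)) (m - e.length) e) =
        -av 𝕜 (Q 𝕜 (ι i)) (m - e.length) e := by
      have h2 := av_map 𝕜 (Th 𝕜 ι : L1 𝕜 (Gam I) →ₗ[𝕜] L1 𝕜 Fam)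
        (fun d => ee 𝕜 (Sum.inr (i, d) : Gam I)) (m - e.length) e
      have h3 := av_map 𝕜 (-LinearMap.id : L1 𝕜 Fam →ₗ[𝕜] L1 𝕜 Fam) (Q 𝕜 (ι i)) (m - e.length) e
      simp only [ContinuousLinearMap.coe_coe, Th_ee] at h2
      simp only [LinearMap.neg_apply, LinearMap.id_apply] at h3
      rw [h2, h3]
      rfl
    rw [zeta, map_sub, map_add, Th_ee, Th_ee, h1]
    change P 𝕜 (tr (ι i) m) e m + -Q 𝕜 (ι i) e - -av 𝕜 (Q 𝕜 (ι i)) (m - e.length) e = 0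
    rw [P_tr 𝕜 (ι i) m e h]
    abel
  · intro j n
    have h2 := av_map 𝕜 (ph 𝕜 j n : L1 𝕜 (Gam I) →ₗ[𝕜] 𝕜)
        (fun d => ee 𝕜 (Sum.inr (i, d) : Gam I)) (m - e.length) e
    simp only [ContinuousLinearMap.coe_coe, ph_ee] at h2
    rw [zeta, map_sub, map_add, ph_ee, ph_ee, h2]
    simp only [vv, Sum.elim_inl, Sum.elim_inr, zero_add]
    by_cases hij : i = j
    · simp only [if_pos hij]
      rw [av_mart 𝕜 (phi 𝕜 n) (phi_mart 𝕜 n), sub_self]
    · simp only [if_neg hij]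
      rw [av_const, sub_self]

/-- vectors spanning the part of the subspace that has to be preserved -/
noncomputable def kap (p : Finset ℕ × List Bool × ℕ) : L1 𝕜 (Gam I) :=
  ee 𝕜 (Sum.inl (p.1, p.2.1, p.2.2)) -
    ee 𝕜 (Sum.inl (tr (↑p.1 : Set ℕ) (p.2.1.length + 1), p.2.1, p.2.1.length + 1)) -
    (2⁻¹ : 𝕜) • (ee 𝕜 (Sum.inl (p.1, false :: p.2.1, p.2.2)) +
      ee 𝕜 (Sum.inl (p.1, true :: p.2.1, p.2.2)))

theorem kap_eq (i : I) (e : List Bool) (m : ℕ) (h : e.length + 1 ≤ m) :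
    kap 𝕜 (I := I) (tr (ι i) m, e, m) = zeta 𝕜 ι i e m - zeta 𝕜 ι i e (e.length + 1) -
      (2⁻¹ : 𝕜) • (zeta 𝕜 ι i (false :: e) m + zeta 𝕜 ι i (true :: e) m) := by
  obtain ⟨k, hk⟩ : ∃ k, m - e.length = k + 1 := ⟨m - e.length - 1, by omega⟩
  have h1 : m - (false :: e).length = k := by rw [List.length_cons]; omega
  have h2 : m - (true :: e).length = k := by rw [List.length_cons]; omega
  have h3 : e.length + 1 - e.length = 1 := by omega
  simp only [kap, zeta, tr_tr (ι i) h, h1, h2, h3, hk, av_succ, av_zero, smul_add, smul_sub]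
  abel

/-- the countable set that has to be fixed -/
def SS : Set (Z 𝕜 ι) := {z | (z : L1 𝕜 (Gam I)) ∈ Set.range (kap 𝕜 (I := I))}

theorem SS_countable : (SS 𝕜 ι).Countable :=
  (Set.countable_range (kap 𝕜 (I := I))).preimage Subtype.val_injective

end Sub

section Main

variable {𝕜 : Type*} [RCLike 𝕜] {I : Type*} (ι : I → Set ℕ)

/-- coordinates outside of a countable set of indices -/
theorem exists_index (hI : ¬ Countable I) (A : Set (Z 𝕜 ι)) (hA : A.Countable) :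
    ∃ i : I, ∀ z ∈ (Submodule.span 𝕜 A).topologicalClosure, ∀ e : List Bool,
      (z : L1 𝕜 (Gam I)) (Sum.inr (i, e)) = 0 := by
  let S : Set I := ⋃ a ∈ A, {i | ∃ e : List Bool, (a : L1 𝕜 (Gam I)) (Sum.inr (i, e)) ≠ 0}
  have hS : S.Countable := by
    refine hA.biUnion fun a _ => ?_
    have h1 : (Function.support fun γ => ‖(a : L1 𝕜 (Gam I)) γ‖).Countable :=
      (summable_norm (a : L1 𝕜 (Gam I))).countable_support
    have h2 : ((fun q : I × List Bool => (Sum.inr q : Gam I)) ⁻¹'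
        (Function.support fun γ => ‖(a : L1 𝕜 (Gam I)) γ‖)).Countable :=
      h1.preimage Sum.inr_injective
    refine (h2.image Prod.fst).mono ?_
    rintro i ⟨e, he⟩
    exact ⟨(i, e), by simpa using he, rfl⟩
  obtain ⟨i, hi⟩ : ∃ i, i ∉ S := by
    by_contra hcon
    push Not at hcon
    apply hI
    have : S = Set.univ := Set.eq_univ_of_forall hcon
    rw [this] at hS
    exact Set.countable_univ_iff.mp hS
  refine ⟨i, fun z hz e => ?_⟩
  let ev : Z 𝕜 ι →L[𝕜] 𝕜 := (lp.evalCLM 𝕜 (fun _ : Gam I => 𝕜) 1 (Sum.inr (i, e))).comp (Z 𝕜 ι).subtypeL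
  have hev : ∀ z, ev z = (z : L1 𝕜 (Gam I)) (Sum.inr (i, e)) := fun z => rfl
  have h1 : (Submodule.span 𝕜 A).topologicalClosure ≤ LinearMap.ker (ev : Z 𝕜 ι →ₗ[𝕜] 𝕜) := by
    refine Submodule.topologicalClosure_minimal _ ?_ ?_
    · rw [Submodule.span_le]
      intro a ha
      rw [SetLike.mem_coe, LinearMap.mem_ker, ContinuousLinearMap.coe_coe, hev]
      by_contra hcon
      exact hi (Set.mem_biUnion ha ⟨e, hcon⟩)
    · exact ContinuousLinearMap.isClosed_ker ev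
  exact h1 hz

/-- estimate of the functionals by the mass over an index -/
theorem norm_ph_le (i : I) (n : ℕ) (f : L1 𝕜 (Gam I)) :
    ‖ph 𝕜 i n f‖ ≤ ∑' d : List Bool, ‖f (Sum.inr (i, d))‖ := by
  have h1 := hasSum_map (ph 𝕜 i n) f
  have hinj : Function.Injective fun d : List Bool => (Sum.inr (i, d) : Gam I) := fun d d' h => by
    simpa using h
  have hsupp : (Function.support fun γ : Gam I => f γ • ph 𝕜 i n (ee 𝕜 γ)) ⊆
      Set.range fun d : List Bool => (Sum.inr (i, d) : Gam I) := by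
    intro γ hγ
    rw [Function.mem_support, ph_ee] at hγ
    rcases γ with γ | ⟨j, d⟩
    · exact absurd (by simp [vv]) hγ
    · by_cases hj : j = i
      · exact ⟨d, by rw [hj]⟩
      · exact absurd (by simp [vv, hj]) hγ
  have h2 := hinj.tsum_eq hsupp
  rw [h1.tsum_eq] at h2
  rw [← h2]
  have h3 : Summable fun d : List Bool => ‖f (Sum.inr (i, d))‖ :=
    (summable_norm f).comp_injective hinj
  refine tsum_of_norm_bounded h3.hasSum fun d => ?_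
  rw [norm_smul, ph_ee]
  exact mul_le_of_le_one_right (norm_nonneg _) (norm_vv_le 𝕜 i n _)

theorem sum_mass_le (f : L1 𝕜 (Gam I)) (s : Finset I) :
    ∑ i ∈ s, ∑' d : List Bool, ‖f (Sum.inr (i, d))‖ ≤ ‖f‖ := by
  have hg : Summable fun q : I × List Bool => ‖f (Sum.inr q)‖ :=
    (summable_norm f).comp_injective Sum.inr_injective
  have h1 : HasSum (fun i : I => ∑' d : List Bool, ‖f (Sum.inr (i, d))‖)
      (∑' q : I × List Bool, ‖f (Sum.inr q)‖) :=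
    hg.hasSum.prod_fiberwise fun i => (hg.prod_factor i).hasSum
  have h2 : ∑ i ∈ s, ∑' d : List Bool, ‖f (Sum.inr (i, d))‖ ≤
      ∑' q : I × List Bool, ‖f (Sum.inr q)‖ :=
    sum_le_hasSum s (fun i _ => tsum_nonneg fun d => norm_nonneg _) h1
  refine h2.trans ?_
  rw [← tsum_norm f]
  exact hg.tsum_le_tsum_of_inj Sum.inr Sum.inr_injective (fun _ _ => norm_nonneg _)
    (fun _ => le_rfl) (summable_norm f)

open Classical in
/-- the last functional -/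
theorem exists_last (x : Set ℕ) (n : ℕ) : ∃ F : L1 𝕜 Fam →L[𝕜] 𝕜, (∀ f, ‖F f‖ ≤ ‖f‖) ∧
    ∀ (y : Set ℕ) (e : List Bool), F (Q 𝕜 y e) =
      if tr y (n + 1) = tr x (n + 1) then phi 𝕜 n e else 0 := by
  obtain ⟨F, hF⟩ := exists_lift (𝕜 := 𝕜) (fun p : Fam =>
    if tr (↑p.1 : Set ℕ) (n + 1) = tr x (n + 1) then phi 𝕜 n p.2 else 0) 1 (fun p => by
      split_ifs
      · exact norm_phi_le 𝕜 _ _
      · simp)
  refine ⟨F, fun f => ?_, fun y e => ?_⟩
  · have h := norm_map_le F 1 (fun p => by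
      rw [hF]
      split_ifs
      · exact norm_phi_le 𝕜 _ _
      · simp) f
    rwa [one_mul] at h
  · rw [Q, hF]
    by_cases h : n + 1 ≤ e.length
    · simp only [tr_tr y h]
    · rw [phi_short 𝕜 n e (by omega)]
      simp

open Classical in
/-- comparison of the last functional with the second family of functionals -/
theorem compare (x : Set ℕ) (n : ℕ) (F : L1 𝕜 Fam →L[𝕜] 𝕜)
    (hF : ∀ (y : Set ℕ) (e : List Bool), F (Q 𝕜 y e) =
      if tr y (n + 1) = tr x (n + 1) then phi 𝕜 n e else 0) (f : L1 𝕜 (Gam I)) (δ : ℝ) (hδ : 0 < δ) :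
    ∃ s : Finset I, (∀ j ∈ s, tr (ι j) (n + 1) = tr x (n + 1)) ∧
      ‖F (Th 𝕜 ι f) + ∑ j ∈ s, ph 𝕜 j n f‖ ≤ δ := by
  have h1 := hasSum_ee f
  obtain ⟨t, ht⟩ : ∃ t : Finset (Gam I), ‖f - ∑ γ ∈ t, f γ • ee 𝕜 γ‖ ≤ δ := by
    have h2 := (Metric.tendsto_atTop.mp h1) δ hδ
    obtain ⟨t, ht⟩ := h2
    refine ⟨t, ?_⟩
    have h3 := ht t le_rfl
    rw [dist_eq_norm, norm_sub_rev] at h3
    exact h3.le
  let s0 : Finset I := t.biUnion fun γ => Sum.elim (fun _ => ∅) (fun q => {q.1}) γ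
  have hs0 : ∀ (j : I) (d : List Bool), Sum.inr (j, d) ∈ t → j ∈ s0 := fun j d h => by
    rw [Finset.mem_biUnion]
    exact ⟨_, h, by simp⟩
  let s : Finset I := s0.filter fun j => tr (ι j) (n + 1) = tr x (n + 1)
  let G : L1 𝕜 (Gam I) →L[𝕜] 𝕜 := F.comp (Th 𝕜 ι) + ∑ j ∈ s, ph 𝕜 j n
  have hG : ∀ f, G f = F (Th 𝕜 ι f) + ∑ j ∈ s, ph 𝕜 j n f := fun f => by
    simp [G, sum_apply]
  have hP : ∀ (a : Finset ℕ) (e : List Bool) (m : ℕ), F (P 𝕜 a e m) = 0 := by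
    intro a e m
    have h2 := av_map 𝕜 (F : L1 𝕜 Fam →ₗ[𝕜] 𝕜) (Q 𝕜 (a : Set ℕ)) (m - e.length) e
    simp only [ContinuousLinearMap.coe_coe, hF] at h2
    rw [P, map_sub, hF, h2]
    by_cases h : tr (↑a : Set ℕ) (n + 1) = tr x (n + 1)
    · simp only [if_pos h]
      rw [av_mart 𝕜 (phi 𝕜 n) (phi_mart 𝕜 n), sub_self]
    · simp only [if_neg h]
      rw [av_const, sub_self]
  have hGl : ∀ p, G (ee 𝕜 (Sum.inl p)) = 0 := by
    intro p
    rw [hG, Th_ee]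
    change F (P 𝕜 p.1 p.2.1 p.2.2) + _ = 0
    rw [hP, zero_add]
    refine Finset.sum_eq_zero fun j _ => ?_
    rw [ph_ee]
    rfl
  have hGr : ∀ (j : I) (d : List Bool), G (ee 𝕜 (Sum.inr (j, d))) =
      if j ∈ s0 then 0 else if tr (ι j) (n + 1) = tr x (n + 1) then -phi 𝕜 n d else 0 := by
    intro j d
    rw [hG, Th_ee]
    change F (-Q 𝕜 (ι j) d) + _ = _
    rw [map_neg, hF]
    have h2 : ∑ j' ∈ s, ph 𝕜 j' n (ee 𝕜 (Sum.inr (j, d))) = if j ∈ s then phi 𝕜 n d else 0 := by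
      simp only [ph_ee, vv, Sum.elim_inr]
      rw [Finset.sum_ite_eq]
    rw [h2]
    by_cases hj : tr (ι j) (n + 1) = tr x (n + 1)
    · by_cases hj2 : j ∈ s0
      · have : j ∈ s := Finset.mem_filter.mpr ⟨hj2, hj⟩
        simp [hj, hj2, this]
      · have : j ∉ s := fun h => hj2 (Finset.mem_filter.mp h).1
        simp [hj, hj2, this]
    · have : j ∉ s := fun h => hj (Finset.mem_filter.mp h).2
      simp [hj, this]
  have hGb : ∀ γ, ‖G (ee 𝕜 γ)‖ ≤ 1 := by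
    intro γ
    rcases γ with γ | ⟨j, d⟩
    · rw [hGl]; simp
    · rw [hGr]
      split_ifs
      · simp
      · rw [norm_neg]; exact norm_phi_le 𝕜 _ _
      · simp
  have hGt : G (∑ γ ∈ t, f γ • ee 𝕜 γ) = 0 := by
    rw [map_sum]
    refine Finset.sum_eq_zero fun γ hγ => ?_
    rw [map_smul]
    rcases γ with γ | ⟨j, d⟩
    · rw [hGl, smul_zero]
    · rw [hGr, if_pos (hs0 j d hγ), smul_zero]
  refine ⟨s, fun j hj => (Finset.mem_filter.mp hj).2, ?_⟩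
  have h4 := norm_map_le G 1 hGb (f - ∑ γ ∈ t, f γ • ee 𝕜 γ)
  rw [map_sub, hGt, sub_zero, hG, one_mul] at h4
  exact h4.trans ht

open Classical in
/-- a fixed auxiliary sequence -/
noncomputable def rho (R : Z 𝕜 ι →ₗ[𝕜] Z 𝕜 ι) (i : I) (e : List Bool) (m : ℕ) : L1 𝕜 (Gam I) :=
  if h : e.length ≤ m then
    (R ⟨zeta 𝕜 ι i e m, zeta_mem 𝕜 ι i e m h⟩ : L1 𝕜 (Gam I)) - ee 𝕜 (Sum.inl (tr (ι i) m, e, m))
  else 0

theorem rho_of_le (R : Z 𝕜 ι →ₗ[𝕜] Z 𝕜 ι) (i : I) (e : List Bool) (m : ℕ) (h : e.length ≤ m) :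
    rho ι R i e m = (R ⟨zeta 𝕜 ι i e m, zeta_mem 𝕜 ι i e m h⟩ : L1 𝕜 (Gam I)) -
      ee 𝕜 (Sum.inl (tr (ι i) m, e, m)) := dif_pos h

theorem rho_bound (R : Z 𝕜 ι →ₗ[𝕜] Z 𝕜 ι) (C : ℝ) (hC : 0 ≤ C) (hR : ∀ z, ‖R z‖ ≤ C * ‖z‖)
    (i : I) (e : List Bool) (m : ℕ) : ‖rho ι R i e m‖ ≤ 3 * C + 1 := by
  by_cases h : e.length ≤ m
  · rw [rho_of_le ι R i e m h]
    refine (norm_sub_le _ _).trans ?_
    rw [norm_ee]
    have h1 := hR ⟨zeta 𝕜 ι i e m, zeta_mem 𝕜 ι i e m h⟩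
    have h2 : ‖(⟨zeta 𝕜 ι i e m, zeta_mem 𝕜 ι i e m h⟩ : Z 𝕜 ι)‖ ≤ 3 := norm_zeta_le 𝕜 ι i e m
    have h3 : C * ‖(⟨zeta 𝕜 ι i e m, zeta_mem 𝕜 ι i e m h⟩ : Z 𝕜 ι)‖ ≤ C * 3 :=
      mul_le_mul_of_nonneg_left h2 hC
    have h4 : ‖(R ⟨zeta 𝕜 ι i e m, zeta_mem 𝕜 ι i e m h⟩ : L1 𝕜 (Gam I))‖ ≤ C * 3 := h1.trans h3
    linarith
  · rw [rho, dif_neg h, norm_zero]
    positivity

theorem rho_rel (R : Z 𝕜 ι →ₗ[𝕜] Z 𝕜 ι) (hS : ∀ z ∈ SS 𝕜 ι, R z = z) (i : I) (e : List Bool)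
    (m : ℕ) (h : e.length + 1 ≤ m) :
    rho ι R i e m = rho ι R i e (e.length + 1) +
      (2⁻¹ : 𝕜) • (rho ι R i (false :: e) m + rho ι R i (true :: e) m) := by
  have hf : (false :: e).length ≤ m := by rw [List.length_cons]; omega
  have ht : (true :: e).length ≤ m := by rw [List.length_cons]; omega
  rw [rho_of_le ι R i e m (by omega), rho_of_le ι R i e (e.length + 1) (by omega),
    rho_of_le ι R i (false :: e) m hf, rho_of_le ι R i (true :: e) m ht]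
  let z : Z 𝕜 ι := ⟨zeta 𝕜 ι i e m, zeta_mem 𝕜 ι i e m (by omega)⟩ -
    ⟨zeta 𝕜 ι i e (e.length + 1), zeta_mem 𝕜 ι i e (e.length + 1) (by omega)⟩ -
    (2⁻¹ : 𝕜) • (⟨zeta 𝕜 ι i (false :: e) m, zeta_mem 𝕜 ι i (false :: e) m hf⟩ +
      ⟨zeta 𝕜 ι i (true :: e) m, zeta_mem 𝕜 ι i (true :: e) m ht⟩)
  have hz : (z : L1 𝕜 (Gam I)) = kap 𝕜 (tr (ι i) m, e, m) := (kap_eq 𝕜 ι i e m h).symm
  have hRz : R z = z := hS z ⟨_, hz.symm⟩
  have h1 : ((R z : Z 𝕜 ι) : L1 𝕜 (Gam I)) = kap 𝕜 (tr (ι i) m, e, m) := by rw [hRz, hz]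
  have h2 : ((R z : Z 𝕜 ι) : L1 𝕜 (Gam I)) =
      (R ⟨zeta 𝕜 ι i e m, zeta_mem 𝕜 ι i e m (by omega)⟩ : L1 𝕜 (Gam I)) -
      (R ⟨zeta 𝕜 ι i e (e.length + 1), zeta_mem 𝕜 ι i e (e.length + 1) (by omega)⟩ :
        L1 𝕜 (Gam I)) -
      (2⁻¹ : 𝕜) • ((R ⟨zeta 𝕜 ι i (false :: e) m, zeta_mem 𝕜 ι i (false :: e) m hf⟩ :
        L1 𝕜 (Gam I)) +
      (R ⟨zeta 𝕜 ι i (true :: e) m, zeta_mem 𝕜 ι i (true :: e) m ht⟩ : L1 𝕜 (Gam I))) := by
    simp only [z, map_sub, map_smul, map_add]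
    rfl
  rw [h2] at h1
  simp only [kap, tr_tr (ι i) h] at h1
  rw [sub_eq_iff_eq_add, sub_eq_iff_eq_add] at h1
  rw [h1]
  simp only [smul_add, smul_sub]
  abel

theorem main_theorem (hι : Function.Injective ι) (hI : ¬ Countable I) (R : Z 𝕜 ι →ₗ[𝕜] Z 𝕜 ι)
    (C : ℝ) (hR : ∀ z, ‖R z‖ ≤ C * ‖z‖) (A : Set (Z 𝕜 ι)) (hA : A.Countable)
    (hRA : ∀ z, R z ∈ (Submodule.span 𝕜 A).topologicalClosure) (hS : ∀ z ∈ SS 𝕜 ι, R z = z) :
    False := by
  classical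
  wlog hC : 0 ≤ C generalizing C with H
  · exact H |C| (fun z => (hR z).trans (mul_le_mul_of_nonneg_right (le_abs_self C)
      (norm_nonneg z))) (abs_nonneg C)
  obtain ⟨i, hi⟩ := exists_index ι hI A hA
  set K := 3 * C + 1 with hK
  have hK0 : 0 ≤ K := by positivity
  have hbd := rho_bound ι R C hC hR i
  have hrel := rho_rel ι R hS i
  -- coordinatewise limits
  have hlim : ∀ (e : List Bool) (γ : Gam I), ∃ l : 𝕜,
      Tendsto (fun m => (rho ι R i e m) γ) (hyperfilter ℕ) (𝓝 l) := by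
    intro e γ
    have h1 := (isCompact_closedBall (0 : 𝕜) K).ultrafilter_le_nhds
      (Ultrafilter.map (fun m => (rho ι R i e m) γ) (hyperfilter ℕ)) (by
        rw [le_principal_iff]
        change (fun m => (rho ι R i e m) γ) ⁻¹' Metric.closedBall 0 K ∈ (hyperfilter ℕ : Filter ℕ)
        refine mem_of_superset univ_mem (fun m _ => ?_)
        rw [Set.mem_preimage, mem_closedBall_zero_iff]
        exact (lp.norm_apply_le_norm one_ne_zero _ γ).trans (hbd e m))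
    obtain ⟨l, _, hl⟩ := h1
    exact ⟨l, hl⟩
  choose l hl using hlim
  have hpi : ∀ e, Tendsto (id fun m => (rho ι R i e m : L1 𝕜 (Gam I)) : ℕ → Gam I → 𝕜)
      (hyperfilter ℕ) (𝓝 (l e)) := fun e => tendsto_pi_nhds.mpr fun γ => hl e γ
  have hmem : ∀ e, Memℓp (l e) 1 := fun e =>
    lp.memℓp_of_tendsto (isBounded_iff_forall_norm_le.mpr ⟨K, by
      rintro _ ⟨m, rfl⟩
      exact hbd e m⟩) (hpi e)
  let L : List Bool → L1 𝕜 (Gam I) := fun e => ⟨l e, hmem e⟩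
  have hLK : ∀ e, ‖L e‖ ≤ K := fun e =>
    lp.norm_le_of_tendsto (F := fun m => rho ι R i e m) (f := L e)
      (Eventually.of_forall (hbd e)) (hpi e)
  have hLrel : ∀ e, L e = rho ι R i e (e.length + 1) +
      (2⁻¹ : 𝕜) • (L (false :: e) + L (true :: e)) := by
    intro e
    ext γ
    change l e γ = (rho ι R i e (e.length + 1)) γ + (2⁻¹ : 𝕜) • (l (false :: e) γ + l (true :: e) γ)
    have h1 : Tendsto (fun m => (rho ι R i e (e.length + 1)) γ + (2⁻¹ : 𝕜) •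
        ((rho ι R i (false :: e) m) γ + (rho ι R i (true :: e) m) γ)) (hyperfilter ℕ)
        (𝓝 ((rho ι R i e (e.length + 1)) γ + (2⁻¹ : 𝕜) • (l (false :: e) γ + l (true :: e) γ))) :=
      tendsto_const_nhds.add (((hl (false :: e) γ).add (hl (true :: e) γ)).const_smul _)
    refine tendsto_nhds_unique (hl e γ) (h1.congr' ?_)
    have h2 : ∀ᶠ m in (hyperfilter ℕ : Filter ℕ), e.length + 1 ≤ m :=
      Nat.hyperfilter_le_atTop (eventually_ge_atTop (e.length + 1))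
    filter_upwards [h2] with m hm
    rw [hrel e m hm]
    rfl
  -- values of the defining operators on rho
  have hrho1 : ∀ e, Th 𝕜 ι (rho ι R i e (e.length + 1)) =
      (2⁻¹ : 𝕜) • (Q 𝕜 (ι i) (false :: e) + Q 𝕜 (ι i) (true :: e)) - Q 𝕜 (ι i) e := by
    intro e
    have h1 := (mem_Z 𝕜 ι _).mp (R ⟨zeta 𝕜 ι i e (e.length + 1),
      zeta_mem 𝕜 ι i e (e.length + 1) (by omega)⟩).2
    rw [rho_of_le ι R i e _ (by omega), map_sub, h1.1, Th_ee]
    change 0 - P 𝕜 (tr (ι i) (e.length + 1)) e (e.length + 1) = _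
    rw [P_tr 𝕜 (ι i) _ e (by omega), show e.length + 1 - e.length = 1 by omega, av_succ, av_zero,
      av_zero]
    abel
  have hrho2 : ∀ e j n, ph 𝕜 j n (rho ι R i e (e.length + 1)) = 0 := by
    intro e j n
    have h1 := (mem_Z 𝕜 ι _).mp (R ⟨zeta 𝕜 ι i e (e.length + 1),
      zeta_mem 𝕜 ι i e (e.length + 1) (by omega)⟩).2
    rw [rho_of_le ι R i e _ (by omega), map_sub, h1.2, ph_ee]
    simp [vv]
  have hLi : ∀ e d, (L e) (Sum.inr (i, d)) = 0 := by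
    intro e d
    change l e (Sum.inr (i, d)) = 0
    refine tendsto_nhds_unique (hl e (Sum.inr (i, d))) ?_
    have : ∀ m, (rho ι R i e m) (Sum.inr (i, d)) = 0 := by
      intro m
      by_cases h : e.length ≤ m
      · rw [rho_of_le ι R i e m h]
        change (R ⟨zeta 𝕜 ι i e m, zeta_mem 𝕜 ι i e m h⟩ : L1 𝕜 (Gam I)) (Sum.inr (i, d)) -
          (ee 𝕜 (Sum.inl (tr (ι i) m, e, m)) : L1 𝕜 (Gam I)) (Sum.inr (i, d)) = 0
        rw [hi _ (hRA _) d, ee_ne (by simp), sub_zero]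
      · rw [rho, dif_neg h]
        rfl
    simp only [this]
    exact tendsto_const_nhds
  -- the two martingales
  let D : List Bool → L1 𝕜 Fam := fun e => Th 𝕜 ι (L e) + Q 𝕜 (ι i) e
  have hD : ∀ e, D e = (2⁻¹ : 𝕜) • (D (false :: e) + D (true :: e)) := by
    intro e
    change Th 𝕜 ι (L e) + Q 𝕜 (ι i) e = (2⁻¹ : 𝕜) • ((Th 𝕜 ι (L (false :: e)) +
      Q 𝕜 (ι i) (false :: e)) + (Th 𝕜 ι (L (true :: e)) + Q 𝕜 (ι i) (true :: e)))
    rw [hLrel e, map_add, map_smul, map_add, hrho1]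
    simp only [smul_add]
    abel
  have hDb : ∀ e, ‖D e‖ ≤ 2 * K + 1 := by
    intro e
    refine (norm_add_le _ _).trans ?_
    have h1 := norm_map_le (Th 𝕜 ι) 2 (fun γ => by rw [Th_ee]; exact norm_uu_le 𝕜 ι γ) (L e)
    have h2 := hLK e
    rw [norm_Q]
    linarith
  have hphm : ∀ j n e, ph 𝕜 j n (L e) =
      (2⁻¹ : 𝕜) • (ph 𝕜 j n (L (false :: e)) + ph 𝕜 j n (L (true :: e))) := by
    intro j n e
    conv_lhs => rw [hLrel e]
    rw [map_add, hrho2, zero_add, map_smul, map_add]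
  -- majorants
  let a : I → List Bool → ℝ := fun j e => ⨆ n, ‖ph 𝕜 j n (L e)‖
  have hbda : ∀ j e, BddAbove (Set.range fun n => ‖ph 𝕜 j n (L e)‖) := fun j e =>
    ⟨_, by
      rintro _ ⟨n, rfl⟩
      exact norm_ph_le j n (L e)⟩
  have hale : ∀ j e n, ‖ph 𝕜 j n (L e)‖ ≤ a j e := fun j e n => le_ciSup (hbda j e) n
  obtain ⟨J, hJ⟩ := tail a (fun j e => (norm_nonneg _).trans (hale j e 0)) (fun j e => by
      refine ciSup_le fun n => ?_
      rw [hphm j n e, norm_smul, norm_half, smul_eq_mul]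
      refine mul_le_mul_of_nonneg_left ?_ (by norm_num)
      exact (norm_add_le _ _).trans (add_le_add (hale _ _ _) (hale _ _ _))) K
    (fun e s => by
      refine le_trans (Finset.sum_le_sum fun j _ => ?_) ((sum_mass_le (L e) s).trans (hLK e))
      exact ciSup_le fun n => norm_ph_le j n (L e)) (1 / 4) (by norm_num)
  obtain ⟨n0, hn0⟩ := rad_L1_small D hD _ hDb (1 / 4) (by norm_num)
  -- a large index
  have hsep : ∀ j : I, ∃ k, j ≠ i → ∀ n, k ≤ n → tr (ι j) (n + 1) ≠ tr (ι i) (n + 1) := by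
    intro j
    by_cases h : j = i
    · exact ⟨0, fun h' => absurd h h'⟩
    · obtain ⟨k, hk⟩ := tr_ne (fun h' => h (hι h'))
      exact ⟨k, fun _ => hk⟩
  choose kk hkk using hsep
  let n := max n0 (J.sup kk)
  obtain ⟨F, hF1, hF2⟩ := exists_last (𝕜 := 𝕜) (ι i) n
  obtain ⟨s, hs1, hs2⟩ := compare ι (ι i) n F hF2 (rad 𝕜 L n) (1 / 4) (by norm_num)
  have e1 : F (rad 𝕜 D n) = F (Th 𝕜 ι (rad 𝕜 L n)) + 1 := by
    have h1 : rad 𝕜 D n = Th 𝕜 ι (rad 𝕜 L n) + rad 𝕜 (Q 𝕜 (ι i)) n := by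
      have h2 := rad_map 𝕜 (Th 𝕜 ι : L1 𝕜 (Gam I) →ₗ[𝕜] L1 𝕜 Fam) L n
      simp only [ContinuousLinearMap.coe_coe] at h2
      rw [h2]
      exact rad_add 𝕜 (fun e => Th 𝕜 ι (L e)) (Q 𝕜 (ι i)) n
    have h3 : F (rad 𝕜 (Q 𝕜 (ι i)) n) = 1 := by
      have h2 := rad_map 𝕜 (F : L1 𝕜 Fam →ₗ[𝕜] 𝕜) (Q 𝕜 (ι i)) n
      simp only [ContinuousLinearMap.coe_coe, hF2, if_true] at h2
      rw [h2]
      exact rad_phi 𝕜 n
    rw [h1, map_add, h3]
  have e2 : ‖F (rad 𝕜 D n)‖ ≤ 1 / 4 := (hF1 _).trans (hn0 n (le_max_left _ _))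
  have e3 : ∀ j, ph 𝕜 j n (rad 𝕜 L n) = rad 𝕜 (fun e => ph 𝕜 j n (L e)) n := fun j =>
    rad_map 𝕜 (ph 𝕜 j n : L1 𝕜 (Gam I) →ₗ[𝕜] 𝕜) L n
  have e4 : ph 𝕜 i n (rad 𝕜 L n) = 0 := by
    rw [e3]
    have h1 : ∀ e, ph 𝕜 i n (L e) = 0 := by
      intro e
      have h2 := norm_ph_le i n (L e)
      simp only [hLi, norm_zero, tsum_zero] at h2
      exact norm_le_zero_iff.mp h2
    simp only [h1]
    unfold rad
    simp only [sub_zero, smul_zero]
    exact av_const 𝕜 0 n []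
  have e5 : ‖∑ j ∈ s, ph 𝕜 j n (rad 𝕜 L n)‖ ≤ 1 / 4 := by
    have h1 : ∑ j ∈ s, ph 𝕜 j n (rad 𝕜 L n) = ∑ j ∈ s.erase i, ph 𝕜 j n (rad 𝕜 L n) := by
      by_cases h : i ∈ s
      · rw [← Finset.add_sum_erase s _ h, e4, zero_add]
      · rw [Finset.erase_eq_of_notMem h]
    rw [h1]
    have h2 : Disjoint (s.erase i) J := by
      rw [Finset.disjoint_left]
      intro j hj hjJ
      have h3 := Finset.mem_erase.mp hj
      exact hkk j h3.1 n ((Finset.le_sup hjJ).trans (le_max_right _ _)) (hs1 j h3.2)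
    refine (norm_sum_le _ _).trans (le_trans (Finset.sum_le_sum fun j _ => ?_)
      (hJ (s.erase i) h2 (n + 1)))
    rw [e3]
    refine (norm_rad_le 𝕜 _ n).trans ?_
    exact av_real_mono _ _ (fun e => hale j e n) (n + 1) []
  have e6 : (1 : 𝕜) = F (rad 𝕜 D n) - ((F (Th 𝕜 ι (rad 𝕜 L n)) + ∑ j ∈ s, ph 𝕜 j n (rad 𝕜 L n)) -
      ∑ j ∈ s, ph 𝕜 j n (rad 𝕜 L n)) := by
    rw [e1]; ring
  have e7 : ‖(1 : 𝕜)‖ ≤ 1 / 4 + (1 / 4 + 1 / 4) := by
    rw [e6]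
    refine (norm_sub_le _ _).trans (add_le_add e2 ?_)
    exact (norm_sub_le _ _).trans (add_le_add hs2 e5)
  rw [norm_one] at e7
  norm_num at e7

end Main

end Pool.Agent.Helper893.L1Sub
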